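import Pool.Agent.R414.DS.Fin3

/-!
The number of plane curves of degree at most `d` and height at most `H` with an integer point has
exact order `H ^ ((d + 1) * (d + 2) / 2 - 1)`, for `d ≥ 6`.
-/

set_option autoImplicit false

open Finset

namespace Pool.Agent.Results.MP_821da1_nt.ExactOrder

open Pool.Agent.R414.DN Pool.Agent.R414.DS

lemma Fv_zero {d : ℕ} {a : Cf d} (h0 : co a 0 0 = 0) : Fv (co a) d 0 0 = 0 := by
  unfold Fv
  rw [sum_eq_single_of_mem 0 (mem_range.2 (Nat.succ_pos d))]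
  · simp [h0]
  · intro k _ hk
    apply sum_eq_zero
    intro i hi
    rw [mem_range] at hi
    rcases Nat.eq_zero_or_pos i with h1 | h1
    · rw [h1, Nat.sub_zero, zero_pow hk, mul_zero, mul_zero]
    · rw [zero_pow h1.ne', zero_mul, mul_zero]

theorem result (d : ℕ) (hd : 6 ≤ d) : ∃ C : ℝ, ∀ H : ℕ, 1 ≤ H →
    (2 * (H : ℝ) + 1) ^ ((d + 1) * (d + 2) / 2 - 1) ≤
      (Set.ncard {F : MvPolynomial (Fin 2) ℤ | F.totalDegree ≤ d ∧ (∀ m, |F.coeff m| ≤ (H : ℤ)) ∧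
        ∃ x y : ℤ, MvPolynomial.eval ![x, y] F = 0} : ℝ) ∧
    (Set.ncard {F : MvPolynomial (Fin 2) ℤ | F.totalDegree ≤ d ∧ (∀ m, |F.coeff m| ≤ (H : ℤ)) ∧
        ∃ x y : ℤ, MvPolynomial.eval ![x, y] F = 0} : ℝ) ≤
      C * (2 * (H : ℝ) + 1) ^ ((d + 1) * (d + 2) / 2 - 1) ∧
    (2 * (H : ℝ) + 1) ^ ((d + 1) * (d + 2) / 2 - 1) ≤
      (Set.ncard {F : MvPolynomial (Fin 2) ℤ | F.totalDegree ≤ d ∧ (∀ m, |F.coeff m| ≤ (H : ℤ)) ∧
        (Irreducible (MvPolynomial.map (Int.castRingHom (AlgebraicClosure ℚ)) F) ∧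
        ∃ x y : ℤ, MvPolynomial.eval ![x, y] F = 0)} : ℝ) +
      C * (2 * (H : ℝ) + 1) ^ ((d + 1) * (d + 2) / 2 - 2) := by
  classical
  obtain ⟨C1, hC1, hmain⟩ := card_zS_sharp hd
  obtain ⟨C2, hC2⟩ : ∃ C2 : ℝ, C2 = 2 + 4 * d * (d + 1) * 3 ^ d * (3 * cR d) ^ d := ⟨_, rfl⟩
  have hC2' : 0 ≤ C2 := by
    have := C2_nonneg d (cR d)
    rw [hC2]
    linarith
  refine ⟨C1 + C2, fun H hH => ?_⟩
  have hH' : (1 : ℝ) ≤ H := by exact_mod_cast hH
  have hoS := card_oS (by omega : 4 ≤ d) hH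
  rw [← hC2] at hoS
  rw [ncard_box d H (fun F => ∃ x y : ℤ, MvPolynomial.eval ![x, y] F = 0),
    ncard_box d H (fun F => Irreducible (MvPolynomial.map (Int.castRingHom (AlgebraicClosure ℚ)) F) ∧
      ∃ x y : ℤ, MvPolynomial.eval ![x, y] F = 0), ← MM_eq]
  have hpos1 : (0 : ℝ) ≤ (2 * (H : ℝ) + 1) ^ (MM d - 1) := by positivity
  have hpos2 : (0 : ℝ) ≤ (2 * (H : ℝ) + 1) ^ (MM d - 2) := by positivity
  refine ⟨?_, ?_, ?_⟩
  · have h00 : (0, 0) ∈ I d := by rw [mem_I]; exact ⟨Nat.zero_le _, le_rfl⟩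
    have h1 : ibox0 H {(⟨(0, 0), h00⟩ : ↥(I d))} ⊆ (ibox ↥(I d) H).filter fun a =>
        ∃ x y : ℤ, MvPolynomial.eval ![x, y] (poly a) = 0 := by
      intro a ha
      have ha' := mem_ibox0.1 ha
      rw [mem_filter]
      refine ⟨mem_ibox.2 fun i => (ha' i).1, 0, 0, ?_⟩
      rw [eval_poly]
      apply Fv_zero
      rw [co_of_mem a h00]
      exact (ha' _).2 (mem_singleton_self _)
    have h2 := card_le_card h1
    rw [card_ibox0, card_singleton] at h2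
    exact_mod_cast h2
  · have h1 : ((ibox ↥(I d) H).filter fun a =>
        ∃ x y : ℤ, MvPolynomial.eval ![x, y] (poly a) = 0) ⊆ zS d H := by
      intro a ha
      rw [mem_filter] at ha
      obtain ⟨h1, x, y, h2⟩ := ha
      rw [eval_poly] at h2
      exact mem_zS.2 ⟨h1, x, y, h2⟩
    have h2 := (Nat.cast_le (α := ℝ)).2 (card_le_card h1)
    refine h2.trans ((hmain H hH).trans ?_)
    exact mul_le_mul_of_nonneg_right (by linarith) hpos1
  · have h1 : oS d H ⊆ ((ibox ↥(I d) H).filter fun a => Irreducible (MvPolynomial.map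
        (Int.castRingHom (AlgebraicClosure ℚ)) (poly a)) ∧ ∃ x y : ℤ,
          MvPolynomial.eval ![x, y] (poly a) = 0) := by
      intro a ha
      rw [mem_filter]
      refine ⟨(mem_oS.1 ha).1, oS_irr (by omega) ha, 0, 0, ?_⟩
      rw [eval_poly]
      exact Fv_zero (mem_oS.1 ha).2.1
    have h2 := (Nat.cast_le (α := ℝ)).2 (card_le_card h1)
    have h3 : C2 * (2 * (H : ℝ) + 1) ^ (MM d - 2) ≤ (C1 + C2) * (2 * (H : ℝ) + 1) ^ (MM d - 2) :=
      mul_le_mul_of_nonneg_right (by linarith) hpos2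
    linarith

end Pool.Agent.Results.MP_821da1_nt.ExactOrder
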