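import Pool.Agent.R414.DU.Fz

/-!
# The size of the largest integer point of a curve with prescribed points at infinity

Let `φ` be an irreducible form of degree `d ≥ 10`. Among the curves `φ + R = 0`, where `R` has degree
at most `d - 1` and coefficients in `[-H, H]`, that have an integer point, the proportion of those
with an integer point outside of the box `[-T, T] ^ 2` is of exact order `T ^ (-(d - 3))`, for every
`T ≥ 1` and all large `H`, with implied constants that depend on `d` only.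
-/

set_option autoImplicit false

open Finset

namespace Pool.Agent.Results.MP_821da1_nt.LargestPointTail

open Pool.Agent.R414.DN Pool.Agent.R414.DU

theorem result (d : ℕ) (hd : 10 ≤ d) : ∃ c C : ℝ, 0 < c ∧
    ∀ φ : MvPolynomial (Fin 2) ℤ, φ.IsHomogeneous d →
    Irreducible (MvPolynomial.map (Int.castRingHom ℚ) φ) →
    ∀ T : ℕ, 1 ≤ T → ∃ H₀ : ℕ, ∀ H : ℕ, H₀ ≤ H →
    c / (T : ℝ) ^ (d - 3) * (Set.ncard {R : MvPolynomial (Fin 2) ℤ | R.totalDegree ≤ d - 1 ∧
        (∀ m, |R.coeff m| ≤ (H : ℤ)) ∧ ∃ x y : ℤ, MvPolynomial.eval ![x, y] (φ + R) = 0} : ℝ) ≤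
      (Set.ncard {R : MvPolynomial (Fin 2) ℤ | R.totalDegree ≤ d - 1 ∧
        (∀ m, |R.coeff m| ≤ (H : ℤ)) ∧ ∃ x y : ℤ, MvPolynomial.eval ![x, y] (φ + R) = 0 ∧
          T < max x.natAbs y.natAbs} : ℝ) ∧
    (Set.ncard {R : MvPolynomial (Fin 2) ℤ | R.totalDegree ≤ d - 1 ∧
        (∀ m, |R.coeff m| ≤ (H : ℤ)) ∧ ∃ x y : ℤ, MvPolynomial.eval ![x, y] (φ + R) = 0 ∧
          T < max x.natAbs y.natAbs} : ℝ) ≤
      C / (T : ℝ) ^ (d - 3) * (Set.ncard {R : MvPolynomial (Fin 2) ℤ | R.totalDegree ≤ d - 1 ∧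
        (∀ m, |R.coeff m| ≤ (H : ℤ)) ∧ ∃ x y : ℤ, MvPolynomial.eval ![x, y] (φ + R) = 0} : ℝ) := by
  classical
  obtain ⟨e, rfl⟩ : ∃ e, d = e + 1 := ⟨d - 1, by omega⟩
  have e0 : e + 1 - 1 = e := rfl
  have e3 : e + 1 - 3 = e - 2 := by omega
  have hK1 := K1_pos e
  have hK2 : 0 < K2 (e + 1) := by unfold K2; positivity
  obtain ⟨D, hD⟩ : ∃ D : ℝ, D = 1 + K2 (e + 1) := ⟨_, rfl⟩
  have hD0 : 0 < D := by rw [hD]; linarith
  refine ⟨1 / (2 * K1 e * D), K2 (e + 1), by positivity, fun φ hφ hirr T hT => ?_⟩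
  obtain ⟨H1, h1⟩ := upper_tail (by omega : 9 ≤ e) hφ hirr T
  obtain ⟨H2, h2⟩ := upper_tail (by omega : 9 ≤ e) hφ hirr 0
  obtain ⟨H3, h3⟩ := lower_tail (by omega : 2 ≤ e) φ hT
  refine ⟨H1 + H2 + H3, fun H hH => ?_⟩
  rw [e0, e3, ncard_box e H (fun R => ∃ x y : ℤ, MvPolynomial.eval ![x, y] (φ + R) = 0),
    ncard_box e H (fun R => ∃ x y : ℤ, MvPolynomial.eval ![x, y] (φ + R) = 0 ∧
      T < max x.natAbs y.natAbs)]
  obtain ⟨X, hX⟩ : ∃ X : ℝ, X = (2 * (H : ℝ) + 1) ^ (MM e - 1) := ⟨_, rfl⟩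
  have hX0 : 0 < X := by rw [hX]; positivity
  have hT' : (1 : ℝ) ≤ T := by exact_mod_cast hT
  have hT0 : (0 : ℝ) < T := by linarith
  have h00 : (0, 0) ∈ I e := by rw [mem_I]; exact ⟨Nat.zero_le _, le_rfl⟩
  have hφ0 : MvPolynomial.eval ![(0 : ℤ), 0] φ = 0 := by
    have h5 : MvPolynomial.eval ![(0 : ℤ), 0] φ = φ.coeff 0 := by
      have h6 : (![(0 : ℤ), 0] : Fin 2 → ℤ) = 0 := by
        funext i
        fin_cases i <;> rfl
      rw [h6, ← MvPolynomial.constantCoeff_eq, MvPolynomial.eval_zero]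
    rw [h5]
    by_contra h7
    have h8 := hφ h7
    rw [map_zero] at h8
    omega
  -- all curves with an integer point
  have hall1 : X ≤ (((ibox ↥(I e) H).filter fun a =>
      ∃ x y : ℤ, MvPolynomial.eval ![x, y] (φ + poly a) = 0).card : ℝ) := by
    have g1 : ibox0 H {(⟨(0, 0), h00⟩ : ↥(I e))} ⊆ (ibox ↥(I e) H).filter fun a =>
        ∃ x y : ℤ, MvPolynomial.eval ![x, y] (φ + poly a) = 0 := by
      intro a ha
      have ha' := mem_ibox0.1 ha
      rw [mem_filter]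
      refine ⟨mem_ibox.2 fun i => (ha' i).1, 0, 0, ?_⟩
      rw [map_add, eval_poly, Fv_origin, hφ0, co_of_mem a h00, (ha' _).2 (mem_singleton_self _),
        add_zero]
    have g2 := card_le_card g1
    rw [card_ibox0, card_singleton] at g2
    rw [hX]
    exact_mod_cast g2
  have hall2 : (((ibox ↥(I e) H).filter fun a =>
      ∃ x y : ℤ, MvPolynomial.eval ![x, y] (φ + poly a) = 0).card : ℝ) ≤ D * X := by
    have g1 : ((ibox ↥(I e) H).filter fun a =>
        ∃ x y : ℤ, MvPolynomial.eval ![x, y] (φ + poly a) = 0) ⊆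
        ibox0 H {(⟨(0, 0), h00⟩ : ↥(I e))} ∪ (ibox ↥(I e) H).filter fun a =>
        ∃ x y : ℤ, MvPolynomial.eval ![x, y] (φ + poly a) = 0 ∧ 0 < max x.natAbs y.natAbs := by
      intro a ha
      rw [mem_filter] at ha
      obtain ⟨ha1, x, y, hxy⟩ := ha
      rw [mem_union, mem_filter]
      by_cases h0 : 0 < max x.natAbs y.natAbs
      · exact Or.inr ⟨ha1, x, y, hxy, h0⟩
      · left
        have hx : x = 0 := by omega
        have hy : y = 0 := by omega
        rw [hx, hy, map_add, eval_poly, Fv_origin, hφ0, zero_add, co_of_mem a h00] at hxy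
        rw [mem_ibox0]
        intro i
        refine ⟨mem_ibox.1 ha1 i, fun hi => ?_⟩
        rw [mem_singleton] at hi
        rw [hi]
        exact hxy
    have g2 := (Nat.cast_le (α := ℝ)).2 ((card_le_card g1).trans (card_union_le _ _))
    have g3 := h2 H (by omega) ((ibox ↥(I e) H).filter fun a =>
        ∃ x y : ℤ, MvPolynomial.eval ![x, y] (φ + poly a) = 0 ∧ 0 < max x.natAbs y.natAbs)
      (filter_subset _ _) (fun a ha => (mem_filter.1 ha).2)
    rw [Nat.cast_zero, zero_add, one_pow, div_one, ← hX] at g3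
    have g4 : ((ibox0 H {(⟨(0, 0), h00⟩ : ↥(I e))}).card : ℝ) = X := by
      rw [card_ibox0, card_singleton, hX]
      push_cast
      rfl
    push_cast at g2
    rw [g4] at g2
    rw [hD, add_mul, one_mul]
    linarith
  constructor
  · have g1 := h3 H (by omega) ((ibox ↥(I e) H).filter fun a =>
        ∃ x y : ℤ, MvPolynomial.eval ![x, y] (φ + poly a) = 0 ∧ T < max x.natAbs y.natAbs)
      (fun r hr hz => mem_filter.2 ⟨hr, hz⟩)
    rw [← hX] at g1
    refine le_trans ?_ g1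
    calc 1 / (2 * K1 e * D) / (T : ℝ) ^ (e - 2) * (((ibox ↥(I e) H).filter fun a =>
          ∃ x y : ℤ, MvPolynomial.eval ![x, y] (φ + poly a) = 0).card : ℝ)
        ≤ 1 / (2 * K1 e * D) / (T : ℝ) ^ (e - 2) * (D * X) := by gcongr
      _ = _ := by field_simp
  · have g1 := h1 H (by omega) ((ibox ↥(I e) H).filter fun a =>
        ∃ x y : ℤ, MvPolynomial.eval ![x, y] (φ + poly a) = 0 ∧ T < max x.natAbs y.natAbs)
      (filter_subset _ _) (fun a ha => (mem_filter.1 ha).2)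
    rw [← hX] at g1
    refine g1.trans ?_
    have g2 : K2 (e + 1) / ((T : ℝ) + 1) ^ (e - 2) ≤ K2 (e + 1) / (T : ℝ) ^ (e - 2) := by
      gcongr
      linarith
    exact mul_le_mul g2 hall1 hX0.le (by positivity)

end Pool.Agent.Results.MP_821da1_nt.LargestPointTail
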