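import Pool.Agent.R414.DN.Exf

/-!
An explicit polynomial bound for the integer points on almost all the plane curves of degree
`d ≥ 5` that have an integer point.
-/

set_option autoImplicit false

open Finset

namespace Pool.Agent.Results.MP_821da1_nt.PolynomialBoundAlmostAll

open Pool.Agent.R414.DN

/-- The explicit bound `((d + 1) h(F)) ^ (10 ^ 17 * 1296 ^ d * (d + 1) ^ 15)`, where `h(F)` is the
sum of the absolute values of the coefficients of `F`. -/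
def bound (d : ℕ) (F : MvPolynomial (Fin 2) ℤ) : ℕ :=
  ((d + 1) * ∑ m ∈ F.support, (F.coeff m).natAbs) ^ (10 ^ 17 * 1296 ^ d * (d + 1) ^ 15)

/-- the analytic part of the proof -/
lemma ratio {M C1 C2 H e w E O K : ℝ} (hH : 1 ≤ H) (hM : 0 < M) (hw : 0 ≤ w) (hC2 : 0 ≤ C2)
    (hC1 : 0 ≤ C1) (hK : 0 ≤ K)
    (h1 : e ≤ E) (h2 : E ≤ C1 * M) (h3 : M * (2 * H + 1) ≤ O + C2 * M) (h4 : O ≤ w) (h5 : e ≤ w) :
    e ≤ (C1 * K + (C1 + C2)) / H * w := by
  have hH0 : 0 < H := by linarith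
  have hK1 : 0 ≤ C1 * K := mul_nonneg hC1 hK
  have hK2 : 0 ≤ C1 * K * w := mul_nonneg hK1 hw
  have hK3 : 0 ≤ C1 * w := mul_nonneg hC1 hw
  have hK4 : 0 ≤ C2 * w := mul_nonneg hC2 hw
  rw [div_mul_eq_mul_div, le_div_iff₀ hH0]
  rcases le_or_gt (2 * C2) (2 * H + 1) with h | h
  · have h6 : M * H ≤ w := by
      have h7 : M * (2 * C2) ≤ M * (2 * H + 1) := mul_le_mul_of_nonneg_left h hM.le
      have h8 : M * (2 * H + 1) = 2 * (M * H) + M := by ring
      have h9 : M * (2 * C2) = 2 * (C2 * M) := by ring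
      rw [h8] at h3 h7
      rw [h9] at h7
      linarith
    have h10 : e * H ≤ (C1 * M) * H := mul_le_mul_of_nonneg_right (h1.trans h2) hH0.le
    have h11 : (C1 * M) * H = C1 * (M * H) := by ring
    have h12 : C1 * (M * H) ≤ C1 * w := mul_le_mul_of_nonneg_left h6 hC1
    have h13 : (C1 * K + (C1 + C2)) * w = C1 * K * w + (C1 * w + C2 * w) := by ring
    rw [h13]
    linarith
  · have h6 : H ≤ C2 := by linarith
    have h10 : e * H ≤ w * H := mul_le_mul_of_nonneg_right h5 hH0.le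
    have h11 : w * H ≤ w * C2 := mul_le_mul_of_nonneg_left h6 hw
    have h13 : (C1 * K + (C1 + C2)) * w = C1 * K * w + (C1 * w + w * C2) := by ring
    rw [h13]
    linarith

/-- the first part of the final estimate -/
lemma upper {C1 C2 H e E : ℝ} {n k : ℕ} (hkn : k ≤ n) (hH : 1 ≤ H) (hC1 : 0 ≤ C1) (hC2 : 0 ≤ C2)
    (h1 : e ≤ E) (h2 : E ≤ C1 * (2 * H + 1) ^ k) :
    e ≤ (C1 * 3 ^ n + (C1 + C2)) * H ^ k := by
  have h3 : (2 * H + 1) ^ k ≤ 3 ^ n * H ^ k := by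
    calc (2 * H + 1) ^ k ≤ (3 * H) ^ k :=
          pow_le_pow_left₀ (by linarith) (by linarith) _
      _ = 3 ^ k * H ^ k := mul_pow _ _ _
      _ ≤ 3 ^ n * H ^ k :=
          mul_le_mul_of_nonneg_right (pow_le_pow_right₀ (by norm_num) hkn)
            (pow_nonneg (by linarith) _)
  have hp : 0 ≤ H ^ k := pow_nonneg (by linarith) _
  have h4 : C1 * (2 * H + 1) ^ k ≤ C1 * (3 ^ n * H ^ k) := mul_le_mul_of_nonneg_left h3 hC1
  have h5 : (C1 * 3 ^ n + (C1 + C2)) * H ^ k = C1 * (3 ^ n * H ^ k) + (C1 + C2) * H ^ k := by ring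
  have h6 : 0 ≤ (C1 + C2) * H ^ k := mul_nonneg (by linarith) hp
  rw [h5]
  linarith

theorem result (d : ℕ) (hd : 5 ≤ d) : ∃ C : ℝ, ∀ H : ℕ, 1 ≤ H →
    (Set.ncard {F : MvPolynomial (Fin 2) ℤ | F.totalDegree ≤ d ∧ (∀ m, |F.coeff m| ≤ (H : ℤ)) ∧
        (Irreducible (MvPolynomial.map (Int.castRingHom ℚ) F) ∧
        ∃ x y : ℤ, MvPolynomial.eval ![x, y] F = 0 ∧ bound d F < max x.natAbs y.natAbs)} : ℝ)
      ≤ C * (H : ℝ) ^ ((d + 1) * (d + 2) / 2 - 2) ∧
    (Set.ncard {F : MvPolynomial (Fin 2) ℤ | F.totalDegree ≤ d ∧ (∀ m, |F.coeff m| ≤ (H : ℤ)) ∧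
        (Irreducible (MvPolynomial.map (Int.castRingHom (AlgebraicClosure ℚ)) F) ∧
        ∃ x y : ℤ, MvPolynomial.eval ![x, y] F = 0 ∧ bound d F < max x.natAbs y.natAbs)} : ℝ)
      ≤ C / H * (Set.ncard {F : MvPolynomial (Fin 2) ℤ | F.totalDegree ≤ d ∧
        (∀ m, |F.coeff m| ≤ (H : ℤ)) ∧
        (Irreducible (MvPolynomial.map (Int.castRingHom (AlgebraicClosure ℚ)) F) ∧
        ∃ x y : ℤ, MvPolynomial.eval ![x, y] F = 0)} : ℝ) := by
  classical
  obtain ⟨G, hG⟩ : ∃ G, G = 10 ^ 17 * 1296 ^ d * (d + 1) ^ 15 := ⟨_, rfl⟩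
  obtain ⟨N, hN⟩ : ∃ N, LargeC d G N := by
    rw [hG]
    exact ⟨_, exists_largeC (by omega : 4 ≤ d)⟩
  have hbound : ∀ F, bound d F = ((d + 1) * Pool.Agent.H322R2.len F) ^ G := by
    intro F
    unfold bound Pool.Agent.H322R2.len
    rw [hG]
  obtain ⟨C1, hC1⟩ : ∃ C1 : ℝ, C1 = 1 + (4 * d * (d + 1) ^ 2 * 9 ^ d * cS d ^ (d - 1)) + d + N :=
    ⟨_, rfl⟩
  obtain ⟨C2, hC2⟩ : ∃ C2 : ℝ, C2 = 2 + 4 * d * (d + 1) * 3 ^ d * (3 * cR d) ^ d := ⟨_, rfl⟩
  have hC1' : 0 ≤ C1 := by rw [hC1]; positivity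
  have hC2' : 0 ≤ C2 := by rw [hC2]; positivity
  refine ⟨C1 * 3 ^ MM d + (C1 + C2), fun H hH => ?_⟩
  have hH' : (1 : ℝ) ≤ H := by exact_mod_cast hH
  have hexc := card_excS hN hd hH
  rw [← hC1] at hexc
  have hoS := card_oS (by omega : 4 ≤ d) hH
  rw [← hC2] at hoS
  rw [ncard_box d H (fun F => Irreducible (MvPolynomial.map (Int.castRingHom ℚ) F) ∧
      ∃ x y : ℤ, MvPolynomial.eval ![x, y] F = 0 ∧ bound d F < max x.natAbs y.natAbs),
    ncard_box d H (fun F => Irreducible (MvPolynomial.map (Int.castRingHom (AlgebraicClosure ℚ)) F) ∧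
      ∃ x y : ℤ, MvPolynomial.eval ![x, y] F = 0 ∧ bound d F < max x.natAbs y.natAbs),
    ncard_box d H (fun F => Irreducible (MvPolynomial.map (Int.castRingHom (AlgebraicClosure ℚ)) F) ∧
      ∃ x y : ℤ, MvPolynomial.eval ![x, y] F = 0)]
  have s1 : ((ibox ↥(I d) H).filter fun a => Irreducible (MvPolynomial.map (Int.castRingHom ℚ)
      (poly a)) ∧ ∃ x y : ℤ, MvPolynomial.eval ![x, y] (poly a) = 0 ∧
        bound d (poly a) < max x.natAbs y.natAbs) ⊆ excS d H G := by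
    intro a ha
    rw [mem_filter] at ha
    obtain ⟨h1, h2, x, y, h3, h4⟩ := ha
    rw [hbound] at h4
    rw [eval_poly] at h3
    exact mem_excS.2 ⟨h1, h2, x, y, h3, h4⟩
  have s2 : ((ibox ↥(I d) H).filter fun a => Irreducible (MvPolynomial.map
      (Int.castRingHom (AlgebraicClosure ℚ)) (poly a)) ∧ ∃ x y : ℤ,
        MvPolynomial.eval ![x, y] (poly a) = 0 ∧
        bound d (poly a) < max x.natAbs y.natAbs) ⊆ excS d H G := by
    intro a ha
    rw [mem_filter] at ha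
    obtain ⟨h1, h2, x, y, h3, h4⟩ := ha
    rw [hbound] at h4
    rw [eval_poly] at h3
    exact mem_excS.2 ⟨h1, irr_descend h2, x, y, h3, h4⟩
  have s3 : oS d H ⊆ ((ibox ↥(I d) H).filter fun a => Irreducible (MvPolynomial.map
      (Int.castRingHom (AlgebraicClosure ℚ)) (poly a)) ∧ ∃ x y : ℤ,
        MvPolynomial.eval ![x, y] (poly a) = 0) := by
    intro a ha
    rw [mem_filter]
    refine ⟨(mem_oS.1 ha).1, oS_irr (by omega) ha, 0, 0, ?_⟩
    rw [eval_poly]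
    have h0 := (mem_oS.1 ha).2.1
    unfold Fv
    rw [sum_eq_single_of_mem 0 (mem_range.2 (Nat.succ_pos d))]
    · simp [h0]
    · intro k _ hk
      apply sum_eq_zero
      intro i hi
      rw [mem_range] at hi
      rcases Nat.eq_zero_or_pos i with h1 | h1
      · rw [h1, Nat.sub_zero, zero_pow hk, mul_zero, mul_zero]
      · rw [zero_pow h1.ne', zero_mul, mul_zero]
  have s4 : ((ibox ↥(I d) H).filter fun a => Irreducible (MvPolynomial.map
      (Int.castRingHom (AlgebraicClosure ℚ)) (poly a)) ∧ ∃ x y : ℤ,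
        MvPolynomial.eval ![x, y] (poly a) = 0 ∧
        bound d (poly a) < max x.natAbs y.natAbs) ⊆
      ((ibox ↥(I d) H).filter fun a => Irreducible (MvPolynomial.map
      (Int.castRingHom (AlgebraicClosure ℚ)) (poly a)) ∧ ∃ x y : ℤ,
        MvPolynomial.eval ![x, y] (poly a) = 0) := by
    intro a ha
    rw [mem_filter] at ha ⊢
    obtain ⟨h1, h2, x, y, h3, -⟩ := ha
    exact ⟨h1, h2, x, y, h3⟩
  have t1 := (Nat.cast_le (α := ℝ)).2 (card_le_card s1)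
  have t2 := (Nat.cast_le (α := ℝ)).2 (card_le_card s2)
  have t3 := (Nat.cast_le (α := ℝ)).2 (card_le_card s3)
  have t4 := (Nat.cast_le (α := ℝ)).2 (card_le_card s4)
  have hMpos : (0 : ℝ) < (2 * (H : ℝ) + 1) ^ (MM d - 2) := by positivity
  have hMM1 : (2 * (H : ℝ) + 1) ^ (MM d - 1) =
      (2 * (H : ℝ) + 1) ^ (MM d - 2) * (2 * (H : ℝ) + 1) := by
    rw [← pow_succ]
    congr 1
    have := MM_pos d
    omega
  rw [hMM1] at hoS
  constructor
  · rw [← MM_eq]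
    exact upper (Nat.sub_le _ _) hH' hC1' hC2' t1 hexc
  · exact ratio hH' hMpos (Nat.cast_nonneg _) hC2' hC1' (by positivity) t2 hexc hoS t3 t4

end Pool.Agent.Results.MP_821da1_nt.PolynomialBoundAlmostAll
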