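import Pool.Agent.R414.DT.Fy

/-!
Curves with a prescribed irreducible leading form of degree `d ≥ 10`: the exact order of magnitude
of the number of those with an integer point.
-/

set_option autoImplicit false

open Finset

namespace Pool.Agent.Results.MP_821da1_nt.PrescribedLeadingForm

open Pool.Agent.R414.DN Pool.Agent.R414.DS Pool.Agent.R414.DT

lemma Fv_zero {d : ℕ} {a : Cf d} (h0 : co a 0 0 = 0) : Fv (co a) d 0 0 = 0 := by
  unfold Fv
  rw [sum_eq_single_of_mem 0 (mem_range.2 (Nat.succ_pos d))]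
  · simp [h0]
  · intro k _ hk
    apply sum_eq_zero
    intro i hi
    rw [mem_range] at hi
    rcases Nat.eq_zero_or_pos i with h1 | h1
    · rw [h1, Nat.sub_zero, zero_pow hk, mul_zero, mul_zero]
    · rw [zero_pow h1.ne', zero_mul, mul_zero]

lemma coeff_LF {d : ℕ} (a : Cf d) (m : Fin 2 →₀ ℕ) :
    (LF a).coeff m = if m 0 + m 1 = d then ((co a d (m 0) : ℤ) : ℚ) else 0 := by
  unfold LF
  have h1 : m.degree = m 0 + m 1 := by rw [Finsupp.degree_eq_sum, Fin.sum_univ_two]
  rw [MvPolynomial.coeff_map, MvPolynomial.coeff_homogeneousComponent, h1]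
  split_ifs with h
  · rw [coeff_poly, h]
    rfl
  · simp

lemma LF_swV {d : ℕ} (a : Cf d) :
    LF (swV a) = MvPolynomial.renameEquiv ℚ (Equiv.swap (0 : Fin 2) 1) (LF a) := by
  ext m
  obtain ⟨m', hm'⟩ : ∃ m' : Fin 2 →₀ ℕ, m' = m.mapDomain (Equiv.swap (0 : Fin 2) 1) := ⟨_, rfl⟩
  have h0 : m' 0 = m 1 := by
    rw [hm', Finsupp.mapDomain_equiv_apply]
    simp
  have h1 : m' 1 = m 0 := by
    rw [hm', Finsupp.mapDomain_equiv_apply]
    simp
  have hm : m = m'.mapDomain (Equiv.swap (0 : Fin 2) 1) := by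
    ext i
    rw [Finsupp.mapDomain_equiv_apply]
    fin_cases i
    · simpa using h1.symm
    · simpa using h0.symm
  have h2 : (MvPolynomial.renameEquiv ℚ (Equiv.swap (0 : Fin 2) 1) (LF a)).coeff m =
      (LF a).coeff m' := by
    rw [MvPolynomial.renameEquiv_apply]
    nth_rewrite 1 [hm]
    exact MvPolynomial.coeff_rename_mapDomain _ (Equiv.injective _) _ _
  rw [h2, coeff_LF, coeff_LF, h0, h1]
  by_cases h : m 0 + m 1 = d
  · rw [if_pos h, if_pos (by omega), co_swV a (by rw [mem_I]; omega)]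
    congr 2
    omega
  · rw [if_neg h, if_neg (by omega)]

lemma QF_swV {d H : ℕ} {a b : Cf d} (ha : a ∈ QF b H) : swV a ∈ QF (swV b) H := by
  rw [mem_QF] at ha ⊢
  refine ⟨swV_mem ha.1, fun i => ?_⟩
  by_cases hmem : (d, i) ∈ I d
  · rw [co_swV a hmem, co_swV b hmem]
    exact ha.2 _
  · unfold co
    rw [dif_neg hmem, dif_neg hmem]

/-- both charts -/
theorem card_both {d : ℕ} {b : Cf d} (hd : 10 ≤ d) (hb : Irreducible (LF b)) :
    ∃ C : ℝ, 0 ≤ C ∧ ∀ H : ℕ, 1 ≤ H → ∀ S : Finset (Cf d), S ⊆ QF b H →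
    (∀ a ∈ S, ∃ x y : ℤ, Fv (co a) d x y = 0) →
    (S.card : ℝ) ≤ C * (2 * (H : ℝ) + 1) ^ (MM d - (d + 1) - 1) := by
  classical
  have hb' : Irreducible (LF (swV b)) := by
    rw [LF_swV]
    exact (MulEquiv.irreducible_iff
      (MvPolynomial.renameEquiv ℚ (Equiv.swap (0 : Fin 2) 1))).2 hb
  obtain ⟨C1, hC1, h1⟩ := card_y hd (lead_of_irr (by omega) hb)
  obtain ⟨C2, hC2, h2⟩ := card_y hd (lead_of_irr (by omega) hb')
  refine ⟨C1 + C2, add_nonneg hC1 hC2, fun H hH S hS hz => ?_⟩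
  have hsub : S ⊆ S.filter (fun a => ∃ x y : ℤ, Fv (co a) d x y = 0 ∧ |x| ≤ |y|) ∪
      S.filter (fun a => ∃ x y : ℤ, Fv (co (swV a)) d x y = 0 ∧ |x| ≤ |y|) := by
    intro a ha
    rw [mem_union, mem_filter, mem_filter]
    obtain ⟨x, y, h0⟩ := hz a ha
    rcases le_total |x| |y| with h | h
    · exact Or.inl ⟨ha, x, y, h0, h⟩
    · exact Or.inr ⟨ha, y, x, by rw [Fv_swV]; exact h0, h⟩
  have b1 := h1 H hH (S.filter (fun a => ∃ x y : ℤ, Fv (co a) d x y = 0 ∧ |x| ≤ |y|))
    ((filter_subset _ _).trans hS) (fun a ha => (mem_filter.1 ha).2)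
  have b2 := h2 H hH
    ((S.filter (fun a => ∃ x y : ℤ, Fv (co (swV a)) d x y = 0 ∧ |x| ≤ |y|)).image swV)
    (by
      intro c hc
      rw [mem_image] at hc
      obtain ⟨a, ha, rfl⟩ := hc
      exact QF_swV (hS (mem_filter.1 ha).1))
    (by
      intro c hc
      rw [mem_image] at hc
      obtain ⟨a, ha, rfl⟩ := hc
      exact (mem_filter.1 ha).2)
  rw [card_image_of_injective _ swV_inj] at b2
  have h3 := (Nat.cast_le (α := ℝ)).2 ((card_le_card hsub).trans (card_union_le _ _))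
  push_cast at h3
  rw [add_mul]
  linarith

theorem result (d : ℕ) (hd : 10 ≤ d) (φ : MvPolynomial (Fin 2) ℤ) (hφ : φ.IsHomogeneous d)
    (hirr : Irreducible (MvPolynomial.map (Int.castRingHom ℚ) φ)) : ∃ C : ℝ, ∀ H : ℕ, 1 ≤ H →
    Set.ncard {R : MvPolynomial (Fin 2) ℤ | R.totalDegree ≤ d - 1 ∧ ∀ m, |R.coeff m| ≤ (H : ℤ)} =
      (2 * H + 1) ^ (d * (d + 1) / 2) ∧
    (2 * (H : ℝ) + 1) ^ (d * (d + 1) / 2 - 1) ≤
      (Set.ncard {R : MvPolynomial (Fin 2) ℤ | R.totalDegree ≤ d - 1 ∧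
        (∀ m, |R.coeff m| ≤ (H : ℤ)) ∧ ∃ x y : ℤ, MvPolynomial.eval ![x, y] (φ + R) = 0} : ℝ) ∧
    (Set.ncard {R : MvPolynomial (Fin 2) ℤ | R.totalDegree ≤ d - 1 ∧
        (∀ m, |R.coeff m| ≤ (H : ℤ)) ∧ ∃ x y : ℤ, MvPolynomial.eval ![x, y] (φ + R) = 0} : ℝ) ≤
      C * (2 * (H : ℝ) + 1) ^ (d * (d + 1) / 2 - 1) := by
  classical
  obtain ⟨e, rfl⟩ : ∃ e, d = e + 1 := ⟨d - 1, by omega⟩
  have e0 : e + 1 - 1 = e := rfl
  -- the vector of the leading form
  have hφd : φ.totalDegree ≤ e + 1 := hφ.totalDegree_le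
  obtain ⟨h0, hh0⟩ : ∃ h0 : ℕ, ∀ m, |φ.coeff m| ≤ (h0 : ℤ) := by
    refine ⟨∑ m ∈ φ.support, (φ.coeff m).natAbs, fun m => ?_⟩
    by_cases hm : m ∈ φ.support
    · rw [Int.abs_eq_natAbs]
      exact_mod_cast single_le_sum (f := fun m => (φ.coeff m).natAbs) (fun _ _ => Nat.zero_le _) hm
    · rw [MvPolynomial.notMem_support_iff.1 hm, abs_zero]
      positivity
  obtain ⟨b, hbbox, hb⟩ := exists_vec hφd hh0
  have hLFb : Irreducible (LF b) := by
    unfold LF
    rw [hb, MvPolynomial.homogeneousComponent_of_mem hφ, if_pos rfl]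
    exact hirr
  obtain ⟨C, hC, hmain⟩ := card_both hd hLFb
  have hMM : MM e = (e + 1) * (e + 1 + 1) / 2 := MM_eq e
  have hMM2 : MM (e + 1) - (e + 1 + 1) = MM e := by
    rw [MM_eq, MM_eq]
    have h1 : (e + 1 + 1) * (e + 1 + 2) = (e + 1) * (e + 2) + 2 * (e + 1 + 1) := by ring
    rw [h1]
    omega
  rw [hMM2] at hmain
  refine ⟨C * (2 * h0 + 1) ^ (MM e - 1), fun H hH => ?_⟩
  rw [← hMM, e0]
  refine ⟨?_, ?_, ?_⟩
  · have h1 := ncard_box e H (fun _ => True)
    simp only [and_true, filter_true] at h1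
    rw [h1, card_ibox]
    rfl
  · rw [ncard_box e H (fun R => ∃ x y : ℤ, MvPolynomial.eval ![x, y] (φ + R) = 0)]
    have h00 : (0, 0) ∈ I e := by rw [mem_I]; exact ⟨Nat.zero_le _, le_rfl⟩
    have h1 : ibox0 H {(⟨(0, 0), h00⟩ : ↥(I e))} ⊆ (ibox ↥(I e) H).filter fun a =>
        ∃ x y : ℤ, MvPolynomial.eval ![x, y] (φ + poly a) = 0 := by
      intro a ha
      have ha' := mem_ibox0.1 ha
      rw [mem_filter]
      refine ⟨mem_ibox.2 fun i => (ha' i).1, 0, 0, ?_⟩
      rw [map_add, eval_poly]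
      have h2 : Fv (co a) e 0 0 = 0 := by
        apply Fv_zero
        rw [co_of_mem a h00]
        exact (ha' _).2 (mem_singleton_self _)
      have h3 : MvPolynomial.eval ![(0 : ℤ), 0] φ = 0 := by
        rw [← hb, eval_poly]
        apply Fv_zero
        have h4 : co b 0 0 = φ.coeff 0 := by
          rw [← hb, coeff_poly]
          rfl
        rw [h4]
        by_contra h5
        have h6 : (0 : Fin 2 →₀ ℕ).degree = e + 1 := by
          rw [Finsupp.degree_eq_weight_one]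
          exact hφ h5
        simp at h6
      rw [h2, h3, add_zero]
    have h2 := card_le_card h1
    rw [card_ibox0, card_singleton] at h2
    exact_mod_cast h2
  · rw [ncard_box e H (fun R => ∃ x y : ℤ, MvPolynomial.eval ![x, y] (φ + R) = 0)]
    obtain ⟨Ψ, hΨ⟩ : ∃ Ψ : Cf e → Cf (e + 1), Ψ = fun r p => b p + co r p.1.1 p.1.2 := ⟨_, rfl⟩
    have hco : ∀ r : Cf e, ∀ k i, co (Ψ r) k i = co b k i + co r k i := by
      intro r k i
      by_cases hmem : (k, i) ∈ I (e + 1)
      · rw [co_of_mem _ hmem, co_of_mem b hmem, hΨ]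
      · have hmem' : (k, i) ∉ I e := by
          rw [mem_I] at hmem ⊢
          omega
        unfold co
        rw [dif_neg hmem, dif_neg hmem, dif_neg hmem', add_zero]
    have hpoly : ∀ r : Cf e, poly (Ψ r) = φ + poly r := by
      intro r
      ext m
      rw [MvPolynomial.coeff_add, ← hb, coeff_poly, coeff_poly, coeff_poly, hco]
    have hΨinj : Function.Injective Ψ := by
      intro r r' h
      have h1 := hpoly r
      rw [h, hpoly r'] at h1
      exact poly_inj (add_left_cancel h1).symm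
    have hΨQ : ∀ r ∈ ibox ↥(I e) H, Ψ r ∈ QF b (H + h0) := by
      intro r hr
      rw [mem_QF, mem_ibox]
      constructor
      · intro p
        rw [hΨ]
        simp only
        have h1 : |b p| ≤ h0 := by
          have := mem_ibox.1 hbbox p
          exact this
        have h2 := co_le hr p.1.1 p.1.2
        have h3 := abs_add_le (b p) (co r p.1.1 p.1.2)
        push_cast
        linarith
      · intro i
        rw [hco]
        have hmem' : (e + 1, i) ∉ I e := by
          rw [mem_I]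
          omega
        have h1 : co r (e + 1) i = 0 := by
          unfold co
          rw [dif_neg hmem']
        rw [h1, add_zero]
    have h1 := hmain (H + h0) (by omega) ((((ibox ↥(I e) H).filter fun a =>
        ∃ x y : ℤ, MvPolynomial.eval ![x, y] (φ + poly a) = 0)).image Ψ) (by
        intro a ha
        rw [mem_image] at ha
        obtain ⟨r, hr, rfl⟩ := ha
        exact hΨQ r (mem_filter.1 hr).1) (by
        intro a ha
        rw [mem_image] at ha
        obtain ⟨r, hr, rfl⟩ := ha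
        obtain ⟨x, y, h2⟩ := (mem_filter.1 hr).2
        refine ⟨x, y, ?_⟩
        rw [← eval_poly, hpoly]
        exact h2)
    rw [card_image_of_injective _ hΨinj] at h1
    refine h1.trans ?_
    rw [mul_assoc, ← mul_pow]
    apply mul_le_mul_of_nonneg_left _ hC
    apply pow_le_pow_left₀ (by positivity)
    push_cast
    have h3 : (0 : ℝ) ≤ (h0 : ℝ) * H := by positivity
    nlinarith

end Pool.Agent.Results.MP_821da1_nt.PrescribedLeadingForm
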